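import Pool.Agent.Run7.h188.FW.Stm

/-!
# Pieces NT, LC, I1, I2 of the project FW (helper188), by helper194
-/

set_option autoImplicit false

namespace Pool.Agent.Run7.h194.FW

open Finset Polynomial Pool.Agent.Run7.h188.FW

/-- a sum with a dominant term does not vanish -/
theorem dom {L : Type} [NormedField L] [IsUltrametricDist L] (I : Finset ℕ) (a : ℕ → L) (l : ℕ)
    (hl : l ∈ I) (h0 : ∑ i ∈ I, a i = 0) (h : ∀ j ∈ I, j ≠ l → ‖a j‖ < ‖a l‖) : a l = 0 := by
  by_contra hne
  rw [← Finset.add_sum_erase I a hl] at h0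
  rcases (I.erase l).eq_empty_or_nonempty with hE | hE
  · rw [hE, Finset.sum_empty, add_zero] at h0
    exact hne h0
  · obtain ⟨i, hi, hle⟩ := IsUltrametricDist.exists_norm_finsetSum_le_of_nonempty hE a
    have h1 : ∑ x ∈ I.erase l, a x = -a l := by
      have := add_eq_zero_iff_eq_neg'.mp h0
      exact this
    rw [h1, norm_neg] at hle
    rw [Finset.mem_erase] at hi
    exact absurd (h i hi.2 hi.1) (not_lt.mpr hle)

/-- the entries without tie -/
theorem T_norm {L : Type} [NormedField L] [IsUltrametricDist L] (κ : ℕ → L) (z : L) (l x : ℕ)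
    (h2 : ‖(2 : L)‖ = 1) (h : ‖κ l‖ ≠ ‖z / κ l‖) :
    ‖T κ z l x‖ = (max ‖κ l‖ ‖z / κ l‖) ^ x := by
  unfold T
  rcases Nat.eq_zero_or_pos x with hx | hx
  · subst hx
    rw [pow_zero, pow_zero, pow_zero]
    have : (1 : L) + 1 = 2 := by norm_num
    rw [this, h2]
  · have h1 : ‖κ l ^ x‖ ≠ ‖(z / κ l) ^ x‖ := by
      rw [norm_pow, norm_pow]
      intro heq
      exact h ((pow_left_inj₀ (norm_nonneg _) (norm_nonneg _) (by omega)).mp heq)
    rw [IsUltrametricDist.norm_add_eq_max_of_norm_ne_norm h1, norm_pow, norm_pow]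
    rcases le_total ‖κ l‖ ‖z / κ l‖ with h3 | h3
    · rw [max_eq_right h3, max_eq_right (pow_le_pow_left₀ (norm_nonneg _) h3 x)]
    · rw [max_eq_left h3, max_eq_left (pow_le_pow_left₀ (norm_nonneg _) h3 x)]

theorem T_norm_le {L : Type} [NormedField L] [IsUltrametricDist L] (κ : ℕ → L) (z : L) (l x : ℕ) :
    ‖T κ z l x‖ ≤ (max ‖κ l‖ ‖z / κ l‖) ^ x := by
  unfold T
  refine (IsUltrametricDist.norm_add_le_max _ _).trans ?_
  rw [norm_pow, norm_pow]
  exact max_le (pow_le_pow_left₀ (norm_nonneg _) (le_max_left _ _) x)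
    (pow_le_pow_left₀ (norm_nonneg _) (le_max_right _ _) x)

theorem sep1 {L : Type} [NormedField L] {κ : ℕ → L} {d : ℕ} {e : ℕ → ℕ} (hD : Dat κ d e) {i j : ℕ}
    (h : ‖κ i‖ = ‖κ j‖) : i = j := by
  have h1 : ‖κ i * κ i‖ = ‖κ j * κ j‖ := by rw [norm_mul, norm_mul, h]
  rcases hD.sep i i j j h1 with h2 | h2
  · exact h2.1
  · exact h2.1

theorem s_inj {L : Type} [NormedField L] {κ : ℕ → L} {d : ℕ} {e : ℕ → ℕ} (hD : Dat κ d e) (z : L)
    {i j : ℕ} (hij : i ≠ j → ‖z‖ ≠ ‖κ i * κ j‖)
    (h : max ‖κ i‖ ‖z / κ i‖ = max ‖κ j‖ ‖z / κ j‖) : i = j := by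
  by_contra hne
  have hi : 0 < ‖κ i‖ := norm_pos_iff.mpr (hD.ne i)
  have hj : 0 < ‖κ j‖ := norm_pos_iff.mpr (hD.ne j)
  have hz := hij hne
  rw [norm_mul] at hz
  rw [norm_div, norm_div] at h
  rcases max_cases ‖κ i‖ (‖z‖ / ‖κ i‖) with ⟨h1, h1'⟩ | ⟨h1, h1'⟩ <;>
    rcases max_cases ‖κ j‖ (‖z‖ / ‖κ j‖) with ⟨h2, h2'⟩ | ⟨h2, h2'⟩ <;> rw [h1, h2] at h
  · exact hne (sep1 hD h)
  · apply hz
    rw [h]
    field_simp
  · apply hz
    rw [← h]
    field_simp
  · have hz0 : 0 < ‖z‖ := by
      rcases eq_or_lt_of_le (norm_nonneg z) with h3 | h3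
      · rw [← h3, zero_div] at h1'
        linarith
      · exact h3
    have h4 : ‖κ i‖ = ‖κ j‖ := by
      rw [div_eq_div_iff hi.ne' hj.ne'] at h
      exact (mul_left_cancel₀ hz0.ne' h).symm
    exact hne (sep1 hD h4)

theorem t_NT : S_TRA → S_NT := by
  intro hTRA L _ _ κ d e hE hD z hz c hc
  by_contra hcon
  push Not at hcon
  obtain ⟨i1, hi1, hci1⟩ := hcon
  obtain ⟨s, hs⟩ : ∃ s : ℕ → ℝ, ∀ l, s l = max ‖κ l‖ ‖z / κ l‖ := ⟨_, fun l => rfl⟩
  have hκ : ∀ l, 0 < ‖κ l‖ := fun l => norm_pos_iff.mpr (hD.ne l)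
  have hspos : ∀ l, 0 < s l := fun l => by rw [hs]; exact lt_of_lt_of_le (hκ l) (le_max_left _ _)
  have hinj : Set.InjOn s (range (d + 1)) := by
    intro i hi j hj hij
    rw [Finset.mem_coe, Finset.mem_range] at hi hj
    rw [hs, hs] at hij
    exact s_inj hD z (fun hne => hz i j (by omega) (by omega) hne) hij
  have hCpos : ∃ i ∈ range (d + 1), 0 < ‖c i‖ :=
    ⟨i1, Finset.mem_range.mpr (by omega), norm_pos_iff.mpr hci1⟩
  have hcard := hTRA (range (d + 1)) (fun i => ‖c i‖) s ((range (d + 1)).image e)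
    (fun i _ => hspos i) (fun i _ => norm_nonneg _) hCpos hinj ?_
  · rw [Finset.card_image_of_injective _ hE.mono.injective] at hcard
    exact lt_irrefl _ hcard
  · intro x hx
    rw [Finset.mem_image] at hx
    obtain ⟨k, hk, rfl⟩ := hx
    rw [Finset.mem_range] at hk
    obtain ⟨l, hl, hmax⟩ := Finset.exists_max_image (range (d + 1))
      (fun j => ‖c j‖ * s j ^ (e k)) ⟨i1, Finset.mem_range.mpr (by omega)⟩
    by_contra hno
    push Not at hno
    have hMl : Mx (range (d + 1)) (fun i => ‖c i‖) s (e k) l := ⟨hl, hmax⟩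
    have hstrict : ∀ j ∈ range (d + 1), j ≠ l → ‖c j‖ * s j ^ (e k) < ‖c l‖ * s l ^ (e k) := by
      intro j hj hjl
      rcases lt_or_eq_of_le (hmax j hj) with h1 | h1
      · exact h1
      · exfalso
        refine hno j l hjl ⟨hj, ?_⟩ hMl
        intro m hm
        have := hmax m hm
        simp only at h1 this ⊢
        rw [h1]; exact this
    have hposl : 0 < ‖c l‖ * s l ^ (e k) := by
      obtain ⟨i, hi, hi'⟩ := hCpos
      exact lt_of_lt_of_le (mul_pos hi' (pow_pos (hspos i) _)) (hmax i hi)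
    have hcl : c l ≠ 0 := by
      intro h0
      rw [h0, norm_zero, zero_mul] at hposl
      exact lt_irrefl _ hposl
    by_cases htie : ‖κ l‖ = ‖z / κ l‖
    · -- the tie
      have hzl : ‖z‖ = ‖κ l‖ * ‖κ l‖ := by
        rw [norm_div] at htie
        have := hκ l
        rw [eq_div_iff this.ne'] at htie
        exact htie.symm
      have hsl : s l = ‖κ l‖ := by rw [hs, ← htie, max_self]
      have hsle : ∀ j, s l ≤ s j := by
        intro j
        by_contra hlt
        rw [not_le] at hlt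
        have h1 : ‖κ j‖ ≤ s j := by rw [hs]; exact le_max_left _ _
        have h2 : ‖z / κ j‖ ≤ s j := by rw [hs]; exact le_max_right _ _
        have h3 : ‖κ j‖ * ‖z / κ j‖ = ‖z‖ := by
          rw [norm_div]
          have := (hκ j).ne'
          field_simp
        have h4 : ‖κ j‖ * ‖z / κ j‖ ≤ s j * s j :=
          mul_le_mul h1 h2 (norm_nonneg _) (hspos j).le
        rw [h3, hzl, ← hsl] at h4
        have h5 : s j * s j < s l * s l := mul_self_lt_mul_self (hspos j).le hlt
        linarith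
      have h0 := hc 0 (by omega)
      rw [hE.e0] at h0
      have hT0 : ∀ i, ‖c i * T κ z i 0‖ = ‖c i‖ := by
        intro i
        have : T κ z i 0 = 2 := by unfold T; norm_num
        rw [this, norm_mul, hD.two, mul_one]
      have h1 := dom (range (d + 1)) (fun i => c i * T κ z i 0) l hl h0 ?_
      · have h2 := hT0 l
        rw [h1, norm_zero] at h2
        exact hcl (norm_eq_zero.mp h2.symm)
      · intro j hj hjl
        rw [hT0, hT0]
        have h2 := hstrict j hj hjl
        have h3 : s l ^ (e k) ≤ s j ^ (e k) := pow_le_pow_left₀ (hspos l).le (hsle j) _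
        have h4 : ‖c l‖ * s l ^ (e k) ≤ ‖c l‖ * s j ^ (e k) :=
          mul_le_mul_of_nonneg_left h3 (norm_nonneg _)
        have h5 : ‖c j‖ * s j ^ (e k) < ‖c l‖ * s j ^ (e k) := lt_of_lt_of_le h2 h4
        exact lt_of_mul_lt_mul_right h5 (pow_pos (hspos j) _).le
    · have h0 := hc k (by omega)
      have hTl : ‖c l * T κ z l (e k)‖ = ‖c l‖ * s l ^ (e k) := by
        rw [norm_mul, T_norm κ z l (e k) hD.two htie, hs]
      have h1 := dom (range (d + 1)) (fun i => c i * T κ z i (e k)) l hl h0 ?_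
      · rw [h1, norm_zero] at hTl
        linarith
      · intro j hj hjl
        rw [hTl]
        refine lt_of_le_of_lt ?_ (hstrict j hj hjl)
        rw [norm_mul, hs]
        exact mul_le_mul_of_nonneg_left (T_norm_le κ z j (e k)) (norm_nonneg _)

theorem t_LC : S_NT → S_LC := by
  intro hNT L _ _ κ d e hE hD c hc
  have hD' : Dat (fun i => (κ i)⁻¹) d e := by
    refine ⟨hD.num, hD.two, fun i => inv_ne_zero (hD.ne i), ?_⟩
    intro i j k l h
    apply hD.sep i j k l
    rw [← mul_inv, ← mul_inv, norm_inv, norm_inv] at h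
    exact inv_injective h
  apply hNT L (fun i => (κ i)⁻¹) d e hE hD' 0
  · intro i j _ _ _ h
    rw [norm_zero] at h
    have h1 : 0 < ‖(κ i)⁻¹ * (κ j)⁻¹‖ :=
      norm_pos_iff.mpr (mul_ne_zero (inv_ne_zero (hD.ne i)) (inv_ne_zero (hD.ne j)))
    linarith
  · intro k hk
    have h1 := hc k hk
    rcases Nat.eq_zero_or_pos (e k) with h0 | h0
    · rw [h0] at h1 ⊢
      have h2 : ∀ i, c i * T (fun i => (κ i)⁻¹) 0 i 0 = 2 * (c i * (κ i)⁻¹ ^ 0) := by
        intro i
        unfold T
        norm_num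
        ring
      rw [Finset.sum_congr rfl (fun i _ => h2 i), ← Finset.mul_sum, h1, mul_zero]
    · have h2 : ∀ i, c i * T (fun i => (κ i)⁻¹) 0 i (e k) = c i * (κ i)⁻¹ ^ (e k) := by
        intro i
        unfold T
        rw [zero_div, zero_pow (by omega), add_zero]
      rw [Finset.sum_congr rfl (fun i _ => h2 i), h1]

theorem t_I2 : S_T2 → S_I2 := by
  intro hT2 L _ _ κ d e hE hD i j hij hj c c' hci hc
  have hκi := hD.ne i
  have hκj := hD.ne j
  have hρ : κ i * κ j / (κ i * κ j) = 1 := div_self (mul_ne_zero hκi hκj)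
  have hRp : ∀ x, Rp κ (κ i * κ j) i j x = (x : L) * (κ j ^ x - κ i ^ x) := by
    intro x
    unfold Rp
    rw [hρ]
    simp
  have hρ' : κ i * κ j / (κ j * κ i) = 1 := by rw [mul_comm (κ j)]; exact hρ
  have hRp' : ∀ x, Rp κ (κ i * κ j) j i x = (x : L) * (κ i ^ x - κ j ^ x) := by
    intro x
    unfold Rp
    rw [hρ']
    simp
  rcases lt_trichotomy ‖κ i‖ ‖κ j‖ with h1 | h1 | h1
  · refine hT2 L κ d e hE hD (κ i * κ j) i j (by omega) hj (by omega) h1 rfl ?_ c c' hci ?_
    · rw [hρ, sub_self, norm_zero]; exact one_pos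
    · intro k hk
      rw [hRp]
      exact hc k hk
  · exact absurd (sep1 hD h1) (by omega)
  · have hTij : ∀ x, T κ (κ i * κ j) i x = T κ (κ i * κ j) j x := by
      intro x
      unfold T
      rw [mul_div_cancel_left₀ _ hκi, mul_div_cancel_right₀ _ hκj, add_comm]
    obtain ⟨c2, hc2⟩ : ∃ c2 : ℕ → L, ∀ l, c2 l = c l + (if l = i then c j else 0) -
        (if l = j then c j else 0) := ⟨_, fun l => rfl⟩
    have h2 := hT2 L κ d e hE hD (κ i * κ j) j i hj (by omega) (by omega) h1
      (by rw [mul_comm]) (by rw [hρ', sub_self, norm_zero]; exact one_pos) c2 (-c') ?_ ?_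
    · refine ⟨neg_eq_zero.mp h2.1, ?_⟩
      have hj0 : c j = 0 := by
        have h3 := h2.2 i (by omega)
        rw [hc2, hci, if_pos rfl, if_neg (by omega)] at h3
        simpa using h3
      intro l hl
      have h3 := h2.2 l hl
      rw [hc2, hj0] at h3
      simpa using h3
    · rw [hc2, if_neg (by omega), if_pos rfl]; ring
    · intro k hk
      rw [hRp']
      have h3 := hc k hk
      have h4 : ∑ l ∈ range (d + 1), c2 l * T κ (κ i * κ j) l (e k) =
          ∑ l ∈ range (d + 1), c l * T κ (κ i * κ j) l (e k) := by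
        have h5 : ∀ l, c2 l * T κ (κ i * κ j) l (e k) = c l * T κ (κ i * κ j) l (e k) +
            (if l = i then c j * T κ (κ i * κ j) l (e k) else 0) -
            (if l = j then c j * T κ (κ i * κ j) l (e k) else 0) := by
          intro l
          rw [hc2]
          split_ifs <;> ring
        rw [Finset.sum_congr rfl (fun l _ => h5 l), Finset.sum_sub_distrib, Finset.sum_add_distrib,
          Finset.sum_ite_eq', Finset.sum_ite_eq', if_pos (Finset.mem_range.mpr (by omega)),
          if_pos (Finset.mem_range.mpr (by omega)), hTij]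
        ring
      rw [h4]
      rw [← h3]
      ring

theorem Rp_id {L : Type} [NormedField L] (κ : ℕ → L) (z : L) (i j x : ℕ) (hi : κ i ≠ 0)
    (hj : κ j ≠ 0) :
    T κ z i x - T κ z j x = (z / (κ i * κ j) - 1) * Rp κ z i j x := by
  unfold T Rp
  have h1 : (z / (κ i * κ j) - 1) * ∑ t ∈ range x, (z / (κ i * κ j)) ^ t =
      (z / (κ i * κ j)) ^ x - 1 := by
    rw [mul_comm]; exact geom_sum_mul _ _
  rw [← mul_assoc, h1]
  have h2 : z / κ i = z / (κ i * κ j) * κ j := by field_simp
  have h3 : z / κ j = z / (κ i * κ j) * κ i := by field_simp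
  rw [h2, h3, mul_pow, mul_pow]
  ring

theorem t_I1 : S_NT → S_T1 → S_T2 → S_I1 := by
  intro hNT hT1 hT2 L _ _ κ d e hE hD z hz c hc
  by_cases hno : ∀ i j, i ≤ d → j ≤ d → i ≠ j → ‖z‖ ≠ ‖κ i * κ j‖
  · exact hNT L κ d e hE hD z hno c (fun k hk => hc k (by omega))
  · push Not at hno
    have hex : ∃ i j, i ≤ d ∧ j ≤ d ∧ i ≠ j ∧ ‖κ i‖ < ‖κ j‖ ∧ ‖z‖ = ‖κ i * κ j‖ := by
      obtain ⟨i, j, hi, hj, hij, h1⟩ := hno
      rcases lt_trichotomy ‖κ i‖ ‖κ j‖ with h2 | h2 | h2
      · exact ⟨i, j, hi, hj, hij, h2, h1⟩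
      · exact absurd (sep1 hD h2) hij
      · exact ⟨j, i, hj, hi, hij.symm, h2, by rw [mul_comm]; exact h1⟩
    obtain ⟨i, j, hi, hj, hij, hlt, hzn⟩ := hex
    have hκi := hD.ne i
    have hκj := hD.ne j
    have hne : κ i * κ j ≠ 0 := mul_ne_zero hκi hκj
    have hρn : ‖z / (κ i * κ j)‖ = 1 := by
      rw [norm_div, hzn]
      exact div_self (norm_ne_zero_iff.mpr hne)
    have hle : ‖z / (κ i * κ j) - 1‖ ≤ 1 := by
      have h1 := IsUltrametricDist.norm_add_le_max (z / (κ i * κ j)) (-1)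
      rw [hρn, norm_neg, norm_one, max_self, ← sub_eq_add_neg] at h1
      exact h1
    rcases lt_or_eq_of_le hle with hρ | hρ
    · have hρ1 : z / (κ i * κ j) - 1 ≠ 0 := by
        intro h1
        have h2 : z = κ i * κ j := by
          have h3 : z / (κ i * κ j) = 1 := sub_eq_zero.mp h1
          rwa [div_eq_one_iff_eq hne] at h3
        rcases lt_or_gt_of_ne hij with h3 | h3
        · exact hz i j h3 hj h2
        · exact hz j i h3 hi (by rw [h2, mul_comm])
      obtain ⟨c2, hc2⟩ : ∃ c2 : ℕ → L, ∀ l, c2 l = c l - (if l = i then c i else 0) +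
          (if l = j then c i else 0) := ⟨_, fun l => rfl⟩
      have h2 := hT2 L κ d e hE hD z i j hi hj hij hlt hzn hρ c2 (c i * (z / (κ i * κ j) - 1)) ?_ ?_
      · have hci : c i = 0 := by
          rcases mul_eq_zero.mp h2.1 with h3 | h3
          · exact h3
          · exact absurd h3 hρ1
        intro l hl
        have h3 := h2.2 l hl
        rw [hc2, hci] at h3
        simpa using h3
      · rw [hc2, if_pos rfl, if_neg hij]; ring
      · intro k hk
        have h5 : ∀ l, c2 l * T κ z l (e k) = c l * T κ z l (e k) -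
            (if l = i then c i * T κ z l (e k) else 0) +
            (if l = j then c i * T κ z l (e k) else 0) := by
          intro l
          rw [hc2]
          split_ifs <;> ring
        rw [Finset.sum_congr rfl (fun l _ => h5 l), Finset.sum_add_distrib, Finset.sum_sub_distrib,
          Finset.sum_ite_eq', Finset.sum_ite_eq', if_pos (Finset.mem_range.mpr (by omega)),
          if_pos (Finset.mem_range.mpr (by omega)), hc k hk]
        have h6 := Rp_id κ z i j (e k) hκi hκj
        linear_combination -(c i) * h6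
    · exact hT1 L κ d e hE hD z i j hi hj hij hlt hzn hρ c hc

end Pool.Agent.Run7.h194.FW
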