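import Pool.Agent.Run7.h188.FW.Stm

/-!
# Pieces TRA, TRB of the project FW (helper188), by helper194
-/

set_option autoImplicit false

namespace Pool.Agent.Run7.h194.FW

open Finset Polynomial Pool.Agent.Run7.h188.FW

theorem mx_pos {I : Finset ℕ} {C s : ℕ → ℝ} (hs : ∀ i ∈ I, 0 < s i) (_hC : ∀ i ∈ I, 0 ≤ C i)
    (hpos : ∃ i ∈ I, 0 < C i) {x i : ℕ} (h : Mx I C s x i) : 0 < C i := by
  obtain ⟨j, hj, hj'⟩ := hpos
  have h1 := h.2 j hj
  have h2 : 0 < C j * s j ^ x := mul_pos hj' (pow_pos (hs j hj) x)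
  have h3 : 0 < C i * s i ^ x := lt_of_lt_of_le h2 h1
  exact pos_of_mul_pos_left h3 (pow_pos (hs i h.1) x).le

theorem mx_mono {I : Finset ℕ} {C s : ℕ → ℝ} (hs : ∀ i ∈ I, 0 < s i) (hC : ∀ i ∈ I, 0 ≤ C i)
    (hpos : ∃ i ∈ I, 0 < C i) {x x' i i' : ℕ} (hx : x < x') (h : Mx I C s x i)
    (h' : Mx I C s x' i') : s i ≤ s i' := by
  by_contra hlt
  rw [not_le] at hlt
  obtain ⟨m, rfl⟩ := Nat.exists_eq_add_of_lt hx
  have hCi := mx_pos hs hC hpos h
  have hsi := hs i h.1
  have hsi' := hs i' h'.1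
  have h1 := h.2 i' h'.1
  have h2 := h'.2 i h.1
  have h3 : s i' ^ (m + 1) < s i ^ (m + 1) := pow_lt_pow_left₀ hlt hsi'.le (by omega)
  have h4 : 0 < C i * s i ^ x := mul_pos hCi (pow_pos hsi x)
  have h5 : C i * s i ^ (x + m + 1) = C i * s i ^ x * s i ^ (m + 1) := by ring
  have h6 : C i' * s i' ^ (x + m + 1) = C i' * s i' ^ x * s i' ^ (m + 1) := by ring
  rw [h5, h6] at h2
  have h7 : C i' * s i' ^ x * s i' ^ (m + 1) ≤ C i * s i ^ x * s i' ^ (m + 1) :=
    mul_le_mul_of_nonneg_right h1 (pow_pos hsi' _).le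
  have h8 : C i * s i ^ x * s i' ^ (m + 1) < C i * s i ^ x * s i ^ (m + 1) :=
    mul_lt_mul_of_pos_left h3 h4
  linarith

theorem t_TRA : S_TRA := by
  intro I C s K hs hC hpos hinj h
  have key : ∀ x ∈ K, ∃ i j, s i < s j ∧ Mx I C s x i ∧ Mx I C s x j := by
    intro x hx
    obtain ⟨i, j, hij, hi, hj⟩ := h x hx
    rcases lt_trichotomy (s i) (s j) with h1 | h1 | h1
    · exact ⟨i, j, h1, hi, hj⟩
    · exact absurd (hinj hi.1 hj.1 h1) hij
    · exact ⟨j, i, h1, hj, hi⟩
  choose! f g hfg using key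
  rcases K.eq_empty_or_nonempty with hK | hK
  · obtain ⟨i, hi, _⟩ := hpos
    rw [hK, Finset.card_empty]
    exact Finset.card_pos.mpr ⟨i, hi⟩
  · obtain ⟨m, hm, hmax⟩ : ∃ m ∈ K, ∀ x ∈ K, x ≤ m := ⟨K.max' hK, K.max'_mem hK, fun x hx => K.le_max' x hx⟩
    have hlt : ∀ x ∈ K, ∀ x' ∈ K, x < x' → s (f x) < s (f x') := by
      intro x hx x' hx' hxx
      exact lt_of_lt_of_le (hfg x hx).1 (mx_mono hs hC hpos hxx (hfg x hx).2.2 (hfg x' hx').2.1)
    have hsub : ∀ x ∈ K, f x ∈ I.erase (g m) := by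
      intro x hx
      rw [Finset.mem_erase]
      refine ⟨?_, (hfg x hx).2.1.1⟩
      intro heq
      rcases lt_or_eq_of_le (hmax x hx) with h1 | h1
      · have h2 := hlt x hx m hm h1
        have h3 := (hfg m hm).1
        rw [heq] at h2
        linarith
      · rw [h1] at heq
        have h3 := (hfg m hm).1
        rw [heq] at h3
        exact lt_irrefl _ h3
    have hinjf : Set.InjOn f K := by
      intro x hx x' hx' hxx
      rcases lt_trichotomy x x' with h1 | h1 | h1
      · have h2 := hlt x hx x' hx' h1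
        rw [hxx] at h2
        exact absurd h2 (lt_irrefl _)
      · exact h1
      · have h2 := hlt x' hx' x hx h1
        rw [hxx] at h2
        exact absurd h2 (lt_irrefl _)
    have h1 := Finset.card_le_card_of_injOn f hsub hinjf
    have h2 : (I.erase (g m)).card < I.card := Finset.card_erase_lt_of_mem (hfg m hm).2.2.1
    omega

theorem t_TRB : S_TRA → S_TRB := by
  intro hTRA I C s e b hb he hs hC hpos hinj h
  classical
  have hmono : ∀ {x x' i i' : ℕ}, x < x' → Mx I C s x i → Mx I C s x' i' → s i ≤ s i' :=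
    fun hx h1 h2 => mx_mono hs hC hpos hx h1 h2
  have hex : ∀ x, ∃ i, Mx I C s x i := by
    intro x
    obtain ⟨i, hi, hmax⟩ := Finset.exists_max_image I (fun j => C j * s j ^ x) ⟨b, hb⟩
    exact ⟨i, hi, hmax⟩
  obtain ⟨U, hU⟩ : ∃ U : ℕ → Prop, ∀ k, U k ↔ ∀ i, Mx I C s (e k) i → i = b := ⟨_, fun k => Iff.rfl⟩
  have hUb : ∀ k, U k → Mx I C s (e k) b := by
    intro k hk
    obtain ⟨i, hi⟩ := hex (e k)
    have := (hU k).mp hk i hi
    rw [← this]; exact hi
  have hint : ∀ k k' k'', k < k' → k' < k'' → U k → U k'' → U k' := by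
    intro k k' k'' h1 h2 hk hk''
    rw [hU]
    intro i hi
    have h3 := hmono (he h1) (hUb k hk) hi
    have h4 := hmono (he h2) hi (hUb k'' hk'')
    exact hinj hi.1 hb (le_antisymm h4 h3)
  have hA : ((range (I.card + 2)).filter fun k => ¬ U k).card < I.card := by
    have h1 := hTRA I C s (((range (I.card + 2)).filter fun k => ¬ U k).image e) hs hC hpos hinj ?_
    · rwa [Finset.card_image_of_injective _ he.injective] at h1
    · intro x hx
      rw [Finset.mem_image] at hx
      obtain ⟨k, hk, rfl⟩ := hx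
      rw [Finset.mem_filter, Finset.mem_range] at hk
      rcases h k hk.1 with h2 | h2
      · exact h2
      · exact absurd ((hU k).mpr h2) hk.2
  have hAB := Finset.card_filter_add_card_filter_not (s := range (I.card + 2)) (fun k => U k)
  rw [Finset.card_range] at hAB
  have hB : 3 ≤ ((range (I.card + 2)).filter fun k => U k).card := by omega
  obtain ⟨B, hBdef⟩ : ∃ B, B = ((range (I.card + 2)).filter fun k => U k) := ⟨_, rfl⟩
  rw [← hBdef] at hB
  have hBne : B.Nonempty := Finset.card_pos.mp (by omega)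
  have hmB := B.min'_mem hBne
  have hMB := B.max'_mem hBne
  have hsub : B ⊆ Finset.Icc (B.min' hBne) (B.max' hBne) := by
    intro x hx
    rw [Finset.mem_Icc]
    exact ⟨B.min'_le x hx, B.le_max' x hx⟩
  have hcard := Finset.card_le_card hsub
  rw [Nat.card_Icc] at hcard
  generalize B.min' hBne = m at *
  generalize B.max' hBne = M at *
  have hm' : m < I.card + 2 ∧ U m := by
    rw [hBdef, Finset.mem_filter, Finset.mem_range] at hmB; exact hmB
  have hM' : M < I.card + 2 ∧ U M := by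
    rw [hBdef, Finset.mem_filter, Finset.mem_range] at hMB; exact hMB
  refine ⟨m, by omega, ?_⟩
  intro l hl
  have hUl : U l := by
    rcases hl with rfl | rfl | rfl
    · exact hm'.2
    · exact hint m _ M (by omega) (by omega) hm'.2 hM'.2
    · rcases Nat.lt_or_ge (m + 2) M with h1 | h1
      · exact hint m _ M (by omega) h1 hm'.2 hM'.2
      · have : m + 2 = M := by omega
        rw [this]; exact hM'.2
  exact (hU l).mp hUl

end Pool.Agent.Run7.h194.FW
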